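import Pool.Agent.TH381.RM3.Defs
import Pool.Agent.TH381.RM.Fun
import Pool.Agent.TH381.RM.Code
import Pool.Agent.TH805.RM.Pipe

/-!
SEQ3: the pipeline with given start states is simulated step by step within values polynomial in
`Q ^ (k + 1)`.  Edit of `Pool/Agent/TH251/RM2/Seq.lean`.
-/

set_option autoImplicit false
set_option linter.unusedSimpArgs false
set_option linter.unusedVariables false

namespace Pool.Agent.TH584.RM3

open Pool.Agent.H584R2.Dg Pool.Agent.W614.Dg Pool.Agent.H539R2 Pool.Agent.TH381.RM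
  Pool.Agent.TH381.RM2
open Pool.Agent.TH381.RM3 (QCoding SSeq)

/-- the pipeline -/
abbrev cg {S : Type} (τ : Dgsm S) (s : ℕ → τ.Q) (y : List S) (l : ℕ) : ℕ → ℤ → Cell τ :=
  Pool.Agent.TH381.RM3.cf τ s y l

theorem cg_zero {S : Type} (τ : Dgsm S) (s : ℕ → τ.Q) (y : List S) (l : ℕ) (i : ℤ) :
    cg τ s y l 0 i = if i + l = 0 then some (τ.init, y) else if 1 ≤ i then none
      else some (s (i + l - 1).toNat, []) := rfl

theorem cg_succ {S : Type} (τ : Dgsm S) (s : ℕ → τ.Q) (y : List S) (l t : ℕ) (i : ℤ) :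
    cg τ s y l (t + 1) i =
      rule τ (cg τ s y l t (i - 1)) (cg τ s y l t i) (cg τ s y l t (i + 1)) := rfl

/-! ### the functions -/

/-- the new digit `i`; `v` is the code of the letter in front at the source -/
def nd (q dc tabS no k v W i : ℕ) : ℕ :=
  dg q dc (((if i + 1 = k then dg q tabS v else dg q W (i + 1)) * q + dg q W i) * q +
    (if i = 0 then no else dg q W (i - 1)))

/-- the new word -/
def nW (q dc tabS no X k v W : ℕ) : ℕ :=
  ∑ i ∈ Finset.range k, nd q dc tabS no k v W i * powT X q i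

/-- the new number of lost letters -/
def nc (q tabE k v c W : ℕ) : ℕ :=
  if v ≠ 0 ∧ (k = 0 ∨ dg 2 tabE (dg q W (k - 1)) = 0) then c + 1 else c

/-- one step -/
def stp (q dc tabS no tabE : ℕ) (g : ℕ → ℕ) (X k z : ℕ) : ℕ :=
  Nat.pair (nc q tabE k (g (Nat.unpair z).1) (Nat.unpair z).1 (Nat.unpair z).2)
    (nW q dc tabS no X k (g (Nat.unpair z).1) (Nat.unpair z).2)

/-- the start -/
def st0 (q tabI : ℕ) (h : ℕ → ℕ) (X k : ℕ) : ℕ :=
  Nat.pair 0 (∑ i ∈ Finset.range k, dg q tabI (h (k - i - 1)) * powT X q i)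

/-- the state at the time `t` -/
def sst (q dc tabS no tabE tabI : ℕ) (g h : ℕ → ℕ) (X k t : ℕ) : ℕ :=
  nrec (st0 q tabI h X k) (fun _ z => stp q dc tabS no tabE g X k z) t

/-- the code of the letter in front at the cell `0` -/
def hdd (q dc tabS no tabE tabI M tabH : ℕ) (g h : ℕ → ℕ) (X k t : ℕ) : ℕ :=
  if k = 0 then g (Nat.unpair (sst q dc tabS no tabE tabI g h X k t)).1
  else dg M tabH (dg q (Nat.unpair (sst q dc tabS no tabE tabI g h X k t)).2 0)

/-! ### they are `LS` -/

theorem LS_nd (q dc tabS no : ℕ) {k v W i : (ℕ → ℕ) → ℕ} (hk : LS k) (hv : LS v) (hW : LS W)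
    (hi : LS i) : LS (fun ρ => nd q dc tabS no (k ρ) (v ρ) (W ρ) (i ρ)) := by
  unfold nd
  exact LS.dg (LS.const q) (LS.const dc)
    ((((LS.ite (LSP.eq hi.succ hk) (LS.dg (LS.const q) (LS.const tabS) hv)
      (LS.dg (LS.const q) hW hi.succ)).mul (LS.const q)).add
        (LS.dg (LS.const q) hW hi)).mul (LS.const q) |>.add
      (LS.ite (LSP.eq hi LS.zero) (LS.const no) (LS.dg (LS.const q) hW (hi.sub (LS.const 1)))))

theorem LS_nW (q dc tabS no : ℕ) {X k v W : (ℕ → ℕ) → ℕ} (hX : LS X) (hk : LS k) (hv : LS v)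
    (hW : LS W) : LS (fun ρ => nW q dc tabS no (X ρ) (k ρ) (v ρ) (W ρ)) := by
  unfold nW
  exact LS.sum (F := fun i ρ => nd q dc tabS no (k ρ) (v ρ) (W ρ) i * powT (X ρ) q i) hk
    ((LS_nd q dc tabS no hk.wk hv.wk hW.wk (LS.var 0)).mul
      (LS.powT hX.wk (LS.const q) (LS.var 0)))

theorem LS_nc (q tabE : ℕ) {k v c W : (ℕ → ℕ) → ℕ} (hk : LS k) (hv : LS v) (hc : LS c)
    (hW : LS W) : LS (fun ρ => nc q tabE (k ρ) (v ρ) (c ρ) (W ρ)) := by
  unfold nc
  exact LS.ite (LSP.and (LSP.not (LSP.eq hv LS.zero)) (LSP.or (LSP.eq hk LS.zero)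
    (LSP.eq (LS.dg (LS.const 2) (LS.const tabE) (LS.dg (LS.const q) hW (hk.sub (LS.const 1))))
      LS.zero))) hc.succ hc

theorem LS_app {G : ℕ → (ℕ → ℕ) → ℕ} (hG : LS (fun ρ => G (ρ 0) (tl ρ))) {i : (ℕ → ℕ) → ℕ}
    (hi : LS i) : LS (fun ρ => G (i ρ) ρ) :=
  LS.lett (f := fun ρ => G (ρ 0) (tl ρ)) hi hG

theorem LS_stp (q dc tabS no tabE : ℕ) {G : ℕ → (ℕ → ℕ) → ℕ} {X k z : (ℕ → ℕ) → ℕ}
    (hG : LS (fun ρ => G (ρ 0) (tl ρ))) (hX : LS X) (hk : LS k) (hz : LS z) :
    LS (fun ρ => stp q dc tabS no tabE (fun c => G c ρ) (X ρ) (k ρ) (z ρ)) := by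
  have hc := LS.unpair1 hz
  have hW := LS.unpair2 hz
  have hv := LS_app hG hc
  exact LS.pair (LS_nc q tabE hk hv hc hW) (LS_nW q dc tabS no hX hk hv hW)

theorem LS_st0 (q tabI : ℕ) {H : ℕ → (ℕ → ℕ) → ℕ} {X k : (ℕ → ℕ) → ℕ}
    (hH : LS (fun ρ => H (ρ 0) (tl ρ))) (hX : LS X) (hk : LS k) :
    LS (fun ρ => st0 q tabI (fun i => H i ρ) (X ρ) (k ρ)) := by
  have hH2 : LS (fun ρ => H (ρ 0) (tl (tl ρ))) :=
    hH.ren (fun i => match i with | 0 => 0 | i + 1 => i + 2)
  have h1 : LS (fun ρ => H (k (tl ρ) - ρ 0 - 1) (tl ρ)) :=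
    LS_app (G := fun c ρ => H c (tl ρ)) hH2 ((hk.wk.sub (LS.var 0)).sub (LS.const 1))
  exact LS.pair LS.zero (LS.sum
    (F := fun i ρ => dg q tabI (H (k ρ - i - 1) ρ) * powT (X ρ) q i) hk
    ((LS.dg (LS.const q) (LS.const tabI) h1).mul (LS.powT hX.wk (LS.const q) (LS.var 0))))

theorem nW_le (q dc tabS no X k v W : ℕ) (hq : 0 < q) :
    nW q dc tabS no X k v W ≤ k * (q * (X + 1)) := by
  unfold nW
  calc ∑ i ∈ Finset.range k, nd q dc tabS no k v W i * powT X q i
      ≤ ∑ i ∈ Finset.range k, q * (X + 1) :=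
        Finset.sum_le_sum fun i _ => Nat.mul_le_mul (dg_lt _ _ _ hq).le (powT_le _ _ _)
    _ = k * (q * (X + 1)) := by simp

theorem sst_bd (q dc tabS no tabE tabI : ℕ) (g h : ℕ → ℕ) (X k : ℕ) (hq : 0 < q)
    (t : ℕ) : (Nat.unpair (sst q dc tabS no tabE tabI g h X k t)).1 ≤ t ∧
      (Nat.unpair (sst q dc tabS no tabE tabI g h X k t)).2 ≤ k * (q * (X + 1)) := by
  induction t with
  | zero =>
    unfold sst
    rw [nrec_zero]
    unfold st0
    rw [Nat.unpair_pair]
    refine ⟨le_rfl, ?_⟩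
    calc ∑ i ∈ Finset.range k, dg q tabI (h (k - i - 1)) * powT X q i
        ≤ ∑ i ∈ Finset.range k, q * (X + 1) :=
        Finset.sum_le_sum fun i _ => Nat.mul_le_mul (dg_lt _ _ _ hq).le (powT_le _ _ _)
      _ = k * (q * (X + 1)) := by simp
  | succ t ih =>
    have e : sst q dc tabS no tabE tabI g h X k (t + 1) =
        stp q dc tabS no tabE g X k (sst q dc tabS no tabE tabI g h X k t) := rfl
    rw [e]
    unfold stp
    rw [Nat.unpair_pair]
    refine ⟨?_, nW_le _ _ _ _ _ _ _ _ hq⟩
    show nc _ _ _ _ _ _ ≤ t + 1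
    unfold nc
    split_ifs <;> omega

theorem pair_bd (a b A B : ℕ) (ha : a ≤ A) (hb : b ≤ B) :
    Nat.pair a b ≤ (A + B + 1) * (A + B + 1) := by
  have h := Nat.pair_lt_max_add_one_sq a b
  have h2 : max a b + 1 ≤ A + B + 1 := by
    have : max a b ≤ A + B := max_le (by omega) (by omega)
    omega
  calc Nat.pair a b ≤ (max a b + 1) ^ 2 := h.le
    _ = (max a b + 1) * (max a b + 1) := by ring
    _ ≤ _ := Nat.mul_le_mul h2 h2

theorem LS_sst (q dc tabS no tabE tabI : ℕ) (hq : 0 < q) {G H : ℕ → (ℕ → ℕ) → ℕ}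
    {X k t : (ℕ → ℕ) → ℕ} (hG : LS (fun ρ => G (ρ 0) (tl ρ)))
    (hH : LS (fun ρ => H (ρ 0) (tl ρ))) (hX : LS X) (hk : LS k) (ht : LS t) :
    LS (fun ρ => sst q dc tabS no tabE tabI (fun c => G c ρ) (fun i => H i ρ) (X ρ) (k ρ)
      (t ρ)) := by
  have hG2 : LS (fun ρ => G (ρ 0) (tl (tl (tl ρ)))) :=
    hG.ren (fun i => match i with | 0 => 0 | i + 1 => i + 3)
  have hb : LS (fun ρ => stp q dc tabS no tabE (fun c => G c (tl (tl ρ))) (X (tl (tl ρ)))
      (k (tl (tl ρ))) (ρ 0)) :=
    LS_stp q dc tabS no tabE (G := fun c ρ => G c (tl (tl ρ))) hG2 hX.wk.wk hk.wk.wk (LS.var 0)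
  have hs : LS (fun ρ => t ρ + k ρ * (q * (X ρ + 1)) + 1) :=
    (ht.add (hk.mul ((LS.const q).mul hX.succ))).succ
  refine LS.nrecB (c := t) (a := fun ρ => st0 q tabI (fun i => H i ρ) (X ρ) (k ρ))
    (b := fun _ acc ρ => stp q dc tabS no tabE (fun c => G c ρ) (X ρ) (k ρ) acc)
    (g := fun ρ => (t ρ + k ρ * (q * (X ρ + 1)) + 1) * (t ρ + k ρ * (q * (X ρ + 1)) + 1))
    ht (LS_st0 q tabI hH hX hk) hb (hs.mul hs) ?_
  intro ρ m hm
  have h := sst_bd q dc tabS no tabE tabI (fun c => G c ρ) (fun i => H i ρ) (X ρ) (k ρ) hq m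
  have e := Nat.pair_unpair (sst q dc tabS no tabE tabI (fun c => G c ρ) (fun i => H i ρ)
    (X ρ) (k ρ) m)
  show sst q dc tabS no tabE tabI (fun c => G c ρ) (fun i => H i ρ) (X ρ) (k ρ) m ≤ _
  rw [← e]
  exact pair_bd _ _ _ _ (h.1.trans hm) h.2

theorem LS_hdd (q dc tabS no tabE tabI M tabH : ℕ) (hq : 0 < q)
    {G H : ℕ → (ℕ → ℕ) → ℕ} {X k t : (ℕ → ℕ) → ℕ} (hG : LS (fun ρ => G (ρ 0) (tl ρ)))
    (hH : LS (fun ρ => H (ρ 0) (tl ρ))) (hX : LS X) (hk : LS k) (ht : LS t) :
    LS (fun ρ => hdd q dc tabS no tabE tabI M tabH (fun c => G c ρ) (fun i => H i ρ) (X ρ)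
      (k ρ) (t ρ)) := by
  have h := LS_sst q dc tabS no tabE tabI hq hG hH hX hk ht
  exact LS.ite (LSP.eq hk LS.zero) (LS_app hG (LS.unpair1 h))
    (LS.dg (LS.const M) (LS.const tabH) (LS.dg (LS.const q) (LS.unpair2 h) LS.zero))

/-! ### the pipeline -/

theorem rule_congr {S : Type} {τ : Dgsm S} {x x' : Cell τ} (h : (buf x).head? = (buf x').head?)
    (y z : Cell τ) : rule τ x y z = rule τ x' y z := by
  rcases y with _ | ⟨q, o⟩
  · rfl
  · cases o with
    | nil =>
      cases hx : buf x with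
      | nil =>
        cases hx' : buf x' with
        | nil => rw [TH805.RM.rule_nil_nil hx, TH805.RM.rule_nil_nil hx']
        | cons a w => rw [hx, hx'] at h; simp at h
      | cons a w =>
        cases hx' : buf x' with
        | nil => rw [hx, hx'] at h; simp at h
        | cons a' w' =>
          rw [hx, hx'] at h
          have ha : a = a' := by simpa using h
          rw [TH805.RM.rule_nil_cons hx, TH805.RM.rule_nil_cons hx', ha]
    | cons s o => rfl

/-! the cells at the border -/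

theorem left_cells {S : Type} (τ : Dgsm S) (s : ℕ → τ.Q) (y : List S) (l t : ℕ) (i : ℤ)
    (hi : i + l < 0) : cg τ s y l t i = some (s 0, []) := by
  induction t generalizing i with
  | zero =>
    rw [cg_zero, if_neg (by omega), if_neg (by omega)]
    have e : (i + l - 1).toNat = 0 := by omega
    rw [e]
  | succ t ih =>
    rw [cg_succ, ih i hi, ih (i - 1) (by omega)]
    exact TH805.RM.rule_nil_nil rfl _ _

theorem sink {S : Type} (τ : Dgsm S) (s : ℕ → τ.Q) (y : List S) (l t : ℕ) :
    cg τ s y l t 1 = none := by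
  induction t with
  | zero => rw [cg_zero, if_neg (by omega), if_pos (by omega)]
  | succ t ih => rw [cg_succ, ih]; rfl

theorem buf_le' {S : Type} (τ : Dgsm S) (s : ℕ → τ.Q) (y : List S) (k K : ℕ)
    (ho : ∀ q x, (τ.out q x).length ≤ K) (t : ℕ) :
    ∀ i : ℤ, i + k ≠ 0 → (buf (cg τ s y k t i)).length ≤ K := by
  induction t with
  | zero =>
    intro i hi
    rw [cg_zero, if_neg hi]
    split_ifs
    · exact Nat.zero_le _
    · exact Nat.zero_le _
  | succ t ih =>
    intro i hi
    rw [cg_succ]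
    exact TH805.RM.rule_buf ho _ _ _ (ih i hi)

/-- the step of the source -/
theorem source_step {S : Type} (τ : Dgsm S) (s : ℕ → τ.Q) (y : List S) (k t c : ℕ)
    (h : cg τ s y k t (-(k : ℤ)) = some (τ.init, y.drop c)) :
    cg τ s y k (t + 1) (-(k : ℤ)) = some (τ.init, y.drop
      (if (y[c]?).isSome ∧ buf (cg τ s y k t (-(k : ℤ) + 1)) = [] then c + 1 else c)) := by
  rw [cg_succ, h]
  cases hy : y[c]? with
  | none =>
    have e : y.drop c = [] := by
      rw [List.getElem?_eq_none_iff] at hy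
      exact List.drop_eq_nil_of_le hy
    rw [if_neg (by simp), e, left_cells τ s y k t _ (by omega)]
    exact TH805.RM.rule_nil_nil rfl _ _
  | some x =>
    have e : y.drop c = x :: y.drop (c + 1) := by
      obtain ⟨hc, hs⟩ := List.getElem?_eq_some_iff.1 hy
      rw [List.drop_eq_getElem_cons hc, hs]
    by_cases hb : buf (cg τ s y k t (-(k : ℤ) + 1)) = []
    · rw [if_pos ⟨rfl, hb⟩, e, TH805.RM.rule_cons_nil hb]
    · rw [if_neg (fun h => hb h.2), e, TH805.RM.rule_cons_cons hb]

/-- **SEQ3** -/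
theorem seq3 : Pool.Agent.TH381.RM3.SSeq := by
  intro S _ τ K M n0 co e cq dq hne hout hK hco hcq
  classical
  obtain ⟨q, en, de, hen, hde⟩ := exists_code τ K
  have hq : 0 < q := lt_of_le_of_lt (Nat.zero_le _) (hen none)
  have hM : 0 < M := lt_of_le_of_lt (Nat.zero_le _) (hco.lt none)
  set dc := digs q (q ^ 3) (fun i => en (rule τ (de (i / q / q)) (de (i / q % q)) (de (i % q))))
    with hdc
  set tabS := digs q M (fun m => en (some (τ.init, (e m).toList))) with htabS
  set tabE := digs 2 q (fun m => if buf (de m) = [] then 0 else 1) with htabE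
  set tabH := digs M q (fun m => co (buf (de m)).head?) with htabH
  set tabI := digs q n0 (fun m => en (some (dq m, []))) with htabI
  have hdg : ∀ l c r, l < q → c < q → r < q → dg q dc ((l * q + c) * q + r) =
      en (rule τ (de l) (de c) (de r)) := by
    intro l c r hl hc hr
    have hlt : (l * q + c) * q + r < q ^ 3 := by
      have h1 : l * q + c + 1 ≤ q * q := by nlinarith
      have h2 : (l * q + c + 1) * q ≤ q * q * q := Nat.mul_le_mul_right _ h1
      have h3 : q ^ 3 = q * q * q := by ring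
      rw [h3]
      nlinarith
    rw [hdc, dg_digs q (q ^ 3) hq _ (fun i _ => hen _) _ hlt]
    have e1 : ((l * q + c) * q + r) / q = l * q + c := by
      rw [mul_comm, Nat.mul_add_div hq, Nat.div_eq_of_lt hr, add_zero]
    have e2 : (l * q + c) / q = l := by
      rw [mul_comm, Nat.mul_add_div hq, Nat.div_eq_of_lt hc, add_zero]
    have e3 : (l * q + c) % q = c := by
      rw [mul_comm, Nat.mul_add_mod, Nat.mod_eq_of_lt hc]
    have e4 : ((l * q + c) * q + r) % q = r := by
      rw [mul_comm, Nat.mul_add_mod, Nat.mod_eq_of_lt hr]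
    rw [e1, e2, e3, e4]
  have hI : ∀ p, dg q tabI (cq p) = en (some (p, [])) := by
    intro p
    rw [htabI, dg_digs q n0 hq _ (fun i _ => hen _) _ (hcq.lt p), hcq.inv]
  have hS : ∀ x, dg q tabS (co x) = en (some (τ.init, x.toList)) := by
    intro x
    rw [htabS, dg_digs q M hq _ (fun i _ => hen _) _ (hco.lt x), hco.inv]
  have hE : ∀ x : Cell τ, (buf x).length ≤ K → (dg 2 tabE (en x) = 0 ↔ buf x = []) := by
    intro x hx
    rw [htabE, dg_digs 2 q (by norm_num) _ (fun i _ => by split_ifs <;> norm_num) _ (hen x),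
      hde x hx]
    split_ifs with h
    · simp [h]
    · simp [h]
  have hH : ∀ x : Cell τ, (buf x).length ≤ K → dg M tabH (en x) = co (buf x).head? := by
    intro x hx
    rw [htabH, dg_digs M q hM _ (fun i _ => hco.lt _) _ (hen x), hde x hx]
  refine ⟨q, hdd q dc tabS (en none) tabE tabI M tabH, hq,
    fun G H X k t hG hH hX hk ht =>
      LS_hdd q dc tabS (en none) tabE tabI M tabH hq hG hH hX hk ht, ?_⟩
  intro g h X k t y s hg hh hX
  show hdd q dc tabS (en none) tabE tabI M tabH g h X k t = co (buf (cg τ s y k t 0)).head?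
  have hpow : ∀ i < k, powT X q i = q ^ i := fun i hi =>
    powT_eq X q i hq ((Nat.pow_le_pow_right hq (by omega)).trans hX)
  have hbuf := buf_le' τ s y k K hout
  -- the invariant
  have inv : ∀ t, ∃ c, sst q dc tabS (en none) tabE tabI g h X k t =
      Nat.pair c (digs q k (fun i => en (cg τ s y k t (-(i : ℤ))))) ∧
      cg τ s y k t (-(k : ℤ)) = some (τ.init, y.drop c) := by
    intro t
    induction t with
    | zero =>
      refine ⟨0, ?_, ?_⟩
      · unfold sst
        rw [nrec_zero]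
        unfold st0 digs
        congr 1
        apply Finset.sum_congr rfl
        intro i hi
        have hi' := Finset.mem_range.1 hi
        have e0 : cg τ s y k 0 (-(i : ℤ)) = some (s (k - i - 1), []) := by
          rw [cg_zero, if_neg (by omega), if_neg (by omega)]
          have e1 : (-(i : ℤ) + k - 1).toNat = k - i - 1 := by omega
          rw [e1]
        show dg q tabI (h (k - i - 1)) * powT X q i = en (cg τ s y k 0 (-(i : ℤ))) * q ^ i
        rw [hpow i hi', e0, hh (k - i - 1) (by omega), hI]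
      · rw [cg_zero, if_pos (by omega), List.drop_zero]
    | succ t ih =>
      obtain ⟨c, h1, h2⟩ := ih
      have hd : ∀ i < k, dg q (digs q k (fun i => en (cg τ s y k t (-(i : ℤ))))) i =
          en (cg τ s y k t (-(i : ℤ))) := fun i hi =>
        dg_digs q k hq _ (fun i _ => hen _) i hi
      set W := digs q k (fun i => en (cg τ s y k t (-(i : ℤ)))) with hW
      have es : sst q dc tabS (en none) tabE tabI g h X k (t + 1) =
          Nat.pair (nc q tabE k (g c) c W) (nW q dc tabS (en none) X k (g c) W) := by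
        have e' : sst q dc tabS (en none) tabE tabI g h X k (t + 1) =
          stp q dc tabS (en none) tabE g X k (sst q dc tabS (en none) tabE tabI g h X k t) := rfl
        rw [e', h1]
        unfold stp
        rw [Nat.unpair_pair]
      refine ⟨nc q tabE k (g c) c W, ?_, ?_⟩
      · rw [es]
        congr 1
        unfold nW digs
        apply Finset.sum_congr rfl
        intro i hi
        have hi' := Finset.mem_range.1 hi
        rw [hpow i hi']
        congr 1
        unfold nd
        -- the left neighbour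
        have hleft : ∃ x : Cell τ, (if i + 1 = k then dg q tabS (g c) else dg q W (i + 1)) = en x ∧
            (buf x).length ≤ K ∧ (buf x).head? = (buf (cg τ s y k t (-(i : ℤ) - 1))).head? := by
          by_cases hik : i + 1 = k
          · refine ⟨some (τ.init, (y[c]?).toList), ?_, ?_, ?_⟩
            · rw [if_pos hik, hg, hS]
            · show ((y[c]?).toList).length ≤ K
              cases y[c]? with
              | none => simp
              | some s => simpa using hK
            · have e1 : -(i : ℤ) - 1 = -(k : ℤ) := by omega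
              rw [e1, h2]
              show ((y[c]?).toList).head? = (y.drop c).head?
              rw [List.head?_drop]
              cases y[c]? <;> rfl
          · have e1 : -(i : ℤ) - 1 = -((i + 1 : ℕ) : ℤ) := by push_cast; ring
            refine ⟨cg τ s y k t (-(i : ℤ) - 1), ?_, hbuf t _ (by omega), rfl⟩
            rw [if_neg hik, hd (i + 1) (by omega), e1]
        have hright : (if i = 0 then en none else dg q W (i - 1)) =
            en (cg τ s y k t (-(i : ℤ) + 1)) := by
          by_cases hi0 : i = 0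
          · rw [if_pos hi0, hi0]
            have e1 : -((0 : ℕ) : ℤ) + 1 = 1 := by norm_num
            rw [e1, sink]
          · rw [if_neg hi0, hd (i - 1) (by omega)]
            congr 2
            omega
        obtain ⟨x, hx1, hx2, hx3⟩ := hleft
        rw [hx1, hright, hd i hi', hdg _ _ _ (hen _) (hen _) (hen _), hde x hx2,
          hde _ (hbuf t _ (by omega)), hde _ (hbuf t _ (by omega)), rule_congr hx3]
        rfl
      · rw [source_step τ s y k t c h2]
        congr 3
        unfold nc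
        have hv : g c ≠ 0 ↔ (y[c]?).isSome = true := by
          rw [hg]
          cases y[c]? with
          | none => simp [hco.none]
          | some s => simp [hco.some s]
        have hb : (k = 0 ∨ dg 2 tabE (dg q W (k - 1)) = 0) ↔
            buf (cg τ s y k t (-(k : ℤ) + 1)) = [] := by
          by_cases hk0 : k = 0
          · subst hk0
            have e1 : -((0 : ℕ) : ℤ) + 1 = 1 := by norm_num
            rw [e1, sink]
            simp [buf]
          · have e1 : -(k : ℤ) + 1 = -((k - 1 : ℕ) : ℤ) := by omega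
            rw [hd (k - 1) (by omega), e1, hE _ (hbuf t _ (by omega))]
            simp [hk0]
        simp only [hv, hb]
  obtain ⟨c, h1, h2⟩ := inv t
  unfold hdd
  rw [h1, Nat.unpair_pair]
  by_cases hk0 : k = 0
  · subst hk0
    rw [if_pos rfl]
    have e1 : -((0 : ℕ) : ℤ) = 0 := by norm_num
    rw [e1] at h2
    rw [h2]
    show g c = co (y.drop c).head?
    rw [hg, List.head?_drop]
  · rw [if_neg hk0]
    show dg M tabH (dg q (digs q k (fun i => en (cg τ s y k t (-(i : ℤ))))) 0) = _
    rw [dg_digs q k hq _ (fun i _ => hen _) 0 (by omega)]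
    have e1 : -((0 : ℕ) : ℤ) = 0 := by norm_num
    rw [e1]
    exact hH _ (hbuf t 0 (by omega))

end Pool.Agent.TH584.RM3
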